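import Mathlib
import Pool.Agent.H2.Transitive

namespace Pool.Agent.Results.MP_c60ead_co.Sparse

open Finset Equiv

/-- A subset Y of S_n is k-transitive if there is r > 0 such that for any two k-tuples a, b of
pairwise distinct points exactly r elements y of Y satisfy y(a_i) = b_i for all i. -/
def KTransitive {n : ℕ} (k : ℕ) (Y : Finset (Perm (Fin n))) : Prop :=
  ∃ r : ℕ, 0 < r ∧ ∀ a b : Fin k → Fin n, Function.Injective a → Function.Injective b →
    (Y.filter fun y => ∀ i, y (a i) = b i).card = r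

/-- For every m ≥ 2 and every n ≥ 2·4^m there is a ⌊(n-2)/2⌋-transitive subset of S_n of size
n!/2^m; it is none of A_n, S_n, S_n minus A_n. -/
theorem result (m n : ℕ) (hm : 2 ≤ m) (hn : 2 * 4 ^ m ≤ n) :
    ∃ Y : Finset (Perm (Fin n)), KTransitive ((n - 2) / 2) Y ∧
      2 ^ m * Y.card = n.factorial ∧
      (Y : Set (Perm (Fin n))) ≠ (alternatingGroup (Fin n) : Set (Perm (Fin n))) ∧
      (Y : Set (Perm (Fin n))) ≠ Set.univ ∧
      (Y : Set (Perm (Fin n))) ≠ (alternatingGroup (Fin n) : Set (Perm (Fin n)))ᶜ := by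
  obtain ⟨Y, h1, h2⟩ := Pool.Agent.H2.Transitive.main (n := n) (r := m) (by omega) hn
  have h4 : 4 ≤ 2 ^ m := by
    calc 4 = 2 ^ 2 := rfl
      _ ≤ 2 ^ m := Nat.pow_le_pow_right (by norm_num) hm
  have h5 : 1 ≤ 4 ^ m := Nat.one_le_pow _ _ (by norm_num)
  haveI : Nontrivial (Fin n) := Fin.nontrivial_iff_two_le.2 (by omega)
  have hA : 2 * (alternatingGroup (Fin n) : Set (Perm (Fin n))).ncard = n.factorial := by
    have := two_mul_nat_card_alternatingGroup (α := Fin n)
    rw [Nat.card_eq_fintype_card (α := Perm (Fin n)), Fintype.card_perm, Fintype.card_fin] at this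
    rw [← this]
    rfl
  have hU : (Set.univ : Set (Perm (Fin n))).ncard = n.factorial := by
    rw [Set.ncard_univ, Nat.card_eq_fintype_card, Fintype.card_perm, Fintype.card_fin]
  have hC := Set.ncard_add_ncard_compl (alternatingGroup (Fin n) : Set (Perm (Fin n)))
  rw [Nat.card_eq_fintype_card, Fintype.card_perm, Fintype.card_fin] at hC
  have hp := n.factorial_pos
  have hY : 4 * Y.card ≤ n.factorial := h2 ▸ Nat.mul_le_mul_right _ h4
  refine ⟨Y, h1, h2, fun h => ?_, fun h => ?_, fun h => ?_⟩ <;>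
  · have := congrArg Set.ncard h
    rw [Set.ncard_coe_finset] at this
    omega

end Pool.Agent.Results.MP_c60ead_co.Sparse
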